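import Pool.Agent.Helper73.RS.St

set_option autoImplicit false

namespace Pool.Agent.Helper27.RS

open Pool.Agent.Helper73.RS
open Filter Topology

attribute [local instance] Ultrafilter.add Ultrafilter.addSemigroup

theorem holds_IDM : StIDM := by
  intro hWIN hRCU
  have huniv : Large (Set.univ : Set ℕ) := by
    refine hWIN _ 1 one_pos fun N => ⟨N, 0, le_rfl, ?_⟩
    have h1 : ∀ x : ℕ, ind (Set.univ : Set ℕ) x = 1 := fun x => ind_of_mem (Set.mem_univ x)
    simp [h1]
  let F : Filter ℕ :=
    { sets := {V | ¬ Large Vᶜ}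
      univ_sets := by
        show ¬ Large (Set.univ)ᶜ
        rw [Set.compl_univ]
        exact fun h => h.infinite Set.finite_empty
      sets_of_superset := by
        intro V V' hV hVV'
        exact fun h => hV (h.mono (Set.compl_subset_compl.2 hVV'))
      inter_sets := by
        intro V V' hV hV' h
        rw [Set.compl_inter] at h
        exact h.union.elim hV hV' }
  have hF : F.NeBot := by
    constructor
    intro h
    have h1 : (∅ : Set ℕ) ∈ F := by rw [h]; exact mem_bot
    have h2 : ¬ Large (∅ᶜ : Set ℕ) := h1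
    rw [Set.compl_empty] at h2
    exact h2 huniv
  let K : Set (Ultrafilter ℕ) := {p | ∀ V ∈ p, Large V}
  have hKne : K.Nonempty := by
    refine ⟨Ultrafilter.of F, fun V hV => ?_⟩
    by_contra hcon
    have h1 : Vᶜ ∈ F := by
      show ¬ Large (Vᶜ)ᶜ
      rwa [compl_compl]
    have h2 : Vᶜ ∈ Ultrafilter.of F := Ultrafilter.of_le F h1
    exact Ultrafilter.compl_mem_iff_notMem.1 h2 hV
  have hKc : IsClosed K := by
    have : K = ⋂ (V : Set ℕ) (_ : ¬ Large V), {p : Ultrafilter ℕ | Vᶜ ∈ p} := by
      ext p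
      simp only [Set.mem_iInter]
      constructor
      · intro hp V hV
        exact Ultrafilter.compl_mem_iff_notMem.2 fun h => hV (hp V h)
      · intro hp V hV
        by_contra hcon
        exact Ultrafilter.compl_mem_iff_notMem.1 (hp V hcon) hV
    rw [this]
    exact isClosed_iInter fun V => isClosed_iInter fun _ => ultrafilter_isClosed_basic _
  have hKadd : ∀ p ∈ K, ∀ q ∈ K, p + q ∈ K := by
    intro p hp q hq V hV
    have h1 : ∀ᶠ a in (p : Filter ℕ), ∀ᶠ b in (q : Filter ℕ), a + b ∈ V :=
      (Ultrafilter.eventually_add p q (· ∈ V)).1 hV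
    obtain ⟨a, ha⟩ := h1.exists
    have h2 : {b | a + b ∈ V} ∈ q := ha
    have h3 := hq _ h2
    rw [← large_shift V a]
    have h4 : {x | x + a ∈ V} = {b | a + b ∈ V} := by
      ext x
      simp [add_comm]
    rw [h4]
    exact h3
  obtain ⟨e, heK, hee⟩ := exists_idempotent_in_compact_add_subsemigroup
    Ultrafilter.continuous_add_left K hKne hKc.isCompact hKadd
  refine ⟨e, fun U hU => ⟨heK U hU, ?_⟩⟩
  obtain ⟨a, ha⟩ := Hindman.exists_FS_of_large e hee U hU
  intro B hB
  obtain ⟨i, j, hij, h⟩ := hRCU B (fun k => ∑ l ∈ Finset.range k, a.get l) hB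
    (fun i j hij => Finset.sum_le_sum_of_subset (Finset.range_mono hij))
  refine ⟨∑ l ∈ Finset.Ico i j, a.get l, ha ?_, ?_⟩
  · exact Hindman.FS.finsetSum a (Finset.Ico i j) (Finset.nonempty_Ico.2 hij)
  · have h1 : (∑ l ∈ Finset.range j, a.get l) - ∑ l ∈ Finset.range i, a.get l =
        ∑ l ∈ Finset.Ico i j, a.get l := by
      have h2 := Finset.sum_range_add_sum_Ico (fun l => a.get l) hij.le
      omega
    simp only [h1] at h
    exact h

end Pool.Agent.Helper27.RS
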